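import Pool.Agent.V5helper90.LL.LimB
import Pool.Agent.H342R3.Lim.Ex

/-!
Lower bound for the dimension of the outer boundary of the limits of the closed lattice path which
traces the outer boundary of the largest critical cluster, from the witness statement `DW` on the
lattice.
-/

set_option autoImplicit false

namespace Pool.Agent.V5helper90.LL

open H974 H12S H389NS H984P H984N H342P H342L H342T
open MeasureTheory Filter Topology Set Metric Pool.Agent.H389R2.Dim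
open Pool.Agent.W424.OD Pool.Agent.TH990.FU Pool.Agent.W822.PD
open Pool.Agent.Y989.FR (Qc)
open Pool.Agent.Y989.FR.LG (AA)
open scoped ENNReal NNReal

theorem prob_or_le (n : ℕ) (A B : Finset Plain.Edge → Prop) :
    Plain.prob n (fun F => A F ∨ B F) ≤ Plain.prob n A + Plain.prob n B := by
  rw [Plain.prob_eq, Plain.prob_eq, Plain.prob_eq]
  exact Pr_or_le (fun _ => ⟨by norm_num, by norm_num⟩) _ A B

/-- The largest cluster has a diameter of order `n`. -/
theorem big_prob {δ : ℝ} (hδ : 0 < δ) : ∃ (η : ℝ) (n0 : ℕ), 0 < η ∧ ∀ n : ℕ, n0 ≤ n →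
    Plain.prob n (fun F => ∃ v, Plain.Largest n F v ∧ ¬ ∃ a ∈ Plain.cluster F v,
      ∃ b ∈ Plain.cluster F v, η * n ≤ ((sd a b : ℤ) : ℝ)) ≤ δ := by
  obtain ⟨K0, hK0⟩ := exists_pow_lt_of_lt_one hδ (by norm_num : (1/2:ℝ) < 1)
  set K1 : ℕ := K0 + 1 with hK1
  have hKd : ((1:ℝ)/2) ^ K1 ≤ δ := by
    refine le_trans ?_ hK0.le
    exact pow_le_pow_of_le_one (by norm_num) (by norm_num) (by omega)
  have hK1p : (0:ℝ) < K1 := by rw [hK1]; positivity
  refine ⟨1 / (6 * K1), 16 * K1, by positivity, fun n hn => ?_⟩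
  set L : ℕ := n / (2 * K1) with hL
  set m : ℕ := L / 3 with hm
  have hLn : 2 * K1 * L ≤ n := by rw [hL]; exact Nat.mul_div_le n (2 * K1)
  have hLn2 : n < 2 * K1 * (L + 1) := by rw [hL]; exact Nat.lt_mul_div_succ n (by omega)
  have hm1 : 3 * m ≤ L := by rw [hm]; exact Nat.mul_div_le L 3
  have hm2 : L < 3 * (m + 1) := by rw [hm]; exact Nat.lt_mul_div_succ L (by omega)
  have hL8 : 8 ≤ L := by
    rw [hL, Nat.le_div_iff_mul_le (by omega)]
    omega
  have hKL : K1 * (L + 1) ≤ n + 1 := by nlinarith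
  have hLnn : L ≤ n := by nlinarith
  have hnm : n ≤ 12 * K1 * m := by
    have h1 : 2 * K1 * (L + 1) ≤ 2 * K1 * (3 * (m + 1)) := by gcongr; omega
    nlinarith
  have p1 := (pr_not_big (n := n) (L := L) (K := K1) (by omega) (m := (m:ℤ)) (by omega)
    (by exact_mod_cast hm1) hKL hLnn).trans hKd
  refine le_trans (Plain.prob_le_of_pr ?_) p1
  rintro F hF ⟨v, hv, hno⟩ ⟨c, d, hc, hd, hcd, h8⟩
  obtain ⟨a, b, ha, hb, hmax⟩ := Plain.isMax_of_largest hv
  apply hno
  refine ⟨a, (Plain.mem_cluster _ _ _).2 ha, b, (Plain.mem_cluster _ _ _).2 hb, ?_⟩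
  have h1 := hmax c d hc hd hcd
  have h2 : dsq a b ≤ 2 * sd a b ^ 2 := by
    have e1 : (a.1 - b.1) ^ 2 ≤ sd a b ^ 2 := by
      rw [← sq_abs (a.1 - b.1)]
      exact pow_le_pow_left₀ (abs_nonneg _) (le_max_left _ _) 2
    have e2 : (a.2 - b.2) ^ 2 ≤ sd a b ^ 2 := by
      rw [← sq_abs (a.2 - b.2)]
      exact pow_le_pow_left₀ (abs_nonneg _) (le_max_right _ _) 2
    unfold dsq
    linarith
  have h3 : (2 * (m:ℤ)) ^ 2 ≤ sd a b ^ 2 := by linarith
  have h4 : 2 * (m:ℤ) ≤ sd a b :=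
     (pow_le_pow_iff_left₀ (by positivity) (sdn a b) two_ne_zero).1 h3
  have h5 : (n:ℝ) ≤ 12 * K1 * m := by exact_mod_cast hnm
  have h6 : 2 * (m:ℝ) ≤ ((sd a b : ℤ) : ℝ) := by exact_mod_cast h4
  rw [div_mul_eq_mul_div, one_mul, div_le_iff₀ (by positivity)]
  nlinarith

/-- **The lower bound for the outer boundary of the limits.** -/
theorem lower (hDW : DW) (sel : (n : ℕ) → Finset Plain.Edge → ℤ × ℤ)
    (hsel : ∀ n F, 0 < n → F ⊆ Plain.edges n → Plain.Largest n F (sel n F))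
    (γ : (n : ℕ) → Finset Plain.Edge → Curve)
    (hγ : ∀ n F, 0 < n → F ⊆ Plain.edges n → (γ n F).path 0 = (γ n F).path 1 ∧
      Set.range (γ n F).path = outerBoundary n F (sel n F))
    (k : ℕ → ℕ) (μ : ProbabilityMeasure Curve) (hk : Tendsto k atTop atTop)
    (hμ : Tendsto (fun i => lawOf (k i) (γ (k i))) atTop (𝓝 μ)) {t : ℝ} (ht : 0 < t)
    (ht1 : t < 4 / 3) :
    ∀ᵐ c : Curve ∂(μ : Measure Curve), ENNReal.ofReal t ≤ dimH (oB (Set.range c.path)) := by
  refine lgc hμ ht (fun f => oB (Set.range f)) ?_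
  intro ε hε
  obtain ⟨δ, hδ, hδε⟩ : ∃ δ : ℝ, 0 < δ ∧ ENNReal.ofReal δ ≤ ε := by
    rcases eq_or_ne ε ∞ with h | h
    · exact ⟨1, one_pos, by rw [h]; exact le_top⟩
    · exact ⟨ε.toReal, ENNReal.toReal_pos hε.ne' h, by rw [ENNReal.ofReal_toReal h]⟩
  obtain ⟨η, n1, hη, hbig⟩ := big_prob (half_pos hδ)
  obtain ⟨E, B, M, K, n0, hE, hB, hM, hK, hn0⟩ := hDW t ht ht1 (min η (δ / 2))
    (lt_min hη (half_pos hδ))
  obtain ⟨Nc, hNc⟩ := exists_sh 10
  have hM' : 0 < 2 ^ B * M := by positivity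
  refine ⟨2 ^ (-t) / E, csq, QQ (2 ^ B * M) 10 B Nc, by positivity, isCompact_csq,
    fun k => QQ_closed _ _ _ _ k, fun k => QQ_inv _ _ _ _ k, ?_, ?_⟩
  · intro f z hz h
    exact QQ_oB hM' hz h
  · intro ε' hε'
    set ρ : ℝ := min (ε' / 2) 1 with hρd
    have hρ : 0 < ρ := lt_min (by positivity) one_pos
    have hρ1 : ρ ≤ 1 := min_le_right _ _
    have hρ4 : 2 * ρ ≤ ε' := by
      have : ρ ≤ ε' / 2 := min_le_left _ _
      linarith
    have hm0 : 0 < (ρ / 2) ^ B / (2 * M) := by positivity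
    set δ0 : ℝ := min (min ((ρ / 2) ^ B / (2 * M)) ρ) (ε' / (2 ^ B * M)) with hδ0d
    have hδ0 : 0 < δ0 := lt_min (lt_min hm0 hρ) (by positivity)
    obtain ⟨n2, hn2⟩ := exists_nat_gt ((K + 3) / δ0)
    have hev : ∀ᶠ i in atTop, max (max n0 n1) (max n2 1) ≤ k i := tendsto_atTop.mp hk _
    filter_upwards [hev] with i hi
    rw [max_le_iff, max_le_iff, max_le_iff] at hi
    obtain ⟨⟨hi0, hi1⟩, hi2, hi3⟩ := hi
    have hopen : IsOpen {p : Curve | ¬ Good t ε' (2 ^ (-t) / E)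
        (AA csq (QQ (2 ^ B * M) 10 B Nc) ε' p.path)} :=
      (isClosed_good_AA_curve (fun k => QQ_closed _ _ _ _ k) (fun k => QQ_inv _ _ _ _ k)
        isCompact_csq).isOpen_compl
    rw [lawOf_apply _ _ hopen.measurableSet]
    refine le_trans (ENNReal.ofReal_le_ofReal ?_) hδε
    have hkpos : (0:ℝ) < k i := by exact_mod_cast hi3
    have hk2 : (n2 : ℝ) ≤ k i := by exact_mod_cast hi2
    have hsm : (K + 3) / (k i : ℝ) < δ0 := by
      rw [div_lt_iff₀ hkpos]
      rw [div_lt_iff₀ hδ0] at hn2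
      nlinarith
    have h1 : (K + 3) / (k i : ℝ) < (ρ / 2) ^ B / (2 * M) :=
      hsm.trans_le ((min_le_left _ _).trans (min_le_left _ _))
    have h2 : (K + 3) / (k i : ℝ) < ρ := hsm.trans_le ((min_le_left _ _).trans (min_le_right _ _))
    have h3 : 2 ^ B * M * ((K + 3) / (k i : ℝ)) < ε' := by
      have h4 : (K + 3) / (k i : ℝ) < ε' / (2 ^ B * M) := hsm.trans_le (min_le_right _ _)
      rw [lt_div_iff₀ hM'] at h4
      linarith
    have p1 := hbig (k i) hi1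
    have p2 := (hn0 (k i) hi0).trans (min_le_right _ _)
    have key : Plain.prob (k i) (fun F => γ (k i) F ∈ {p : Curve | ¬ Good t ε' (2 ^ (-t) / E)
        (AA csq (QQ (2 ^ B * M) 10 B Nc) ε' p.path)}) ≤
        Plain.prob (k i) (fun F => (∃ v, Plain.Largest (k i) F v ∧ ¬ ∃ a ∈ Plain.cluster F v,
          ∃ b ∈ Plain.cluster F v, η * (k i : ℕ) ≤ ((sd a b : ℤ) : ℝ)) ∨
          ∃ v ∈ Plain.box (k i), (∃ a ∈ Plain.cluster F v, ∃ b ∈ Plain.cluster F v,
            min η (δ / 2) * (k i : ℕ) ≤ ((sd a b : ℤ) : ℝ)) ∧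
            ¬ Wit (k i) (Plain.cluster F v) t E B M K) := by
      apply prob_mono
      intro F hF hbad
      by_contra hcon
      push Not at hcon
      obtain ⟨c1, c2⟩ := hcon
      have hL := hsel (k i) F hi3 hF
      obtain ⟨a, ha, b, hb, hab⟩ := c1 (sel (k i) F) hL
      have hW := c2 (sel (k i) F) hL.1 ⟨a, ha, b, hb, le_trans
        (mul_le_mul_of_nonneg_right (min_le_left _ _) hkpos.le) hab⟩
      exact hbad (good_of_wit hi3 hF hL.1 (hγ (k i) F hi3 hF).2 ht hE hM hK hρ hρ1 hρ4 h1 h2 h3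
        hW hNc)
    refine key.trans ((prob_or_le _ _ _).trans ?_)
    linarith

/-- **The dimension of the outer boundary of the limits.** -/
theorem eq_of_DW (hDW : DW) (sel : (n : ℕ) → Finset Plain.Edge → ℤ × ℤ)
    (hsel : ∀ n F, 0 < n → F ⊆ Plain.edges n → Plain.Largest n F (sel n F))
    (γ : (n : ℕ) → Finset Plain.Edge → Curve)
    (hγ : ∀ n F, 0 < n → F ⊆ Plain.edges n → (γ n F).path 0 = (γ n F).path 1 ∧
      Set.range (γ n F).path = outerBoundary n F (sel n F))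
    (k : ℕ → ℕ) (μ : ProbabilityMeasure Curve) (hk : Tendsto k atTop atTop)
    (hμ : Tendsto (fun i => lawOf (k i) (γ (k i))) atTop (𝓝 μ)) :
    ∀ᵐ c : Curve ∂(μ : Measure Curve), dimH (oB (Set.range c.path)) = 4 / 3 := by
  have h1 : ∀ j : ℕ, ∀ᵐ c : Curve ∂(μ : Measure Curve),
      ENNReal.ofReal (4 / 3 - 1 / ((j : ℝ) + 1)) ≤ dimH (oB (Set.range c.path)) := by
    intro j
    have hj : (0:ℝ) < 1 / ((j : ℝ) + 1) := by positivity
    have hj1 : 1 / ((j : ℝ) + 1) ≤ 1 := by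
      rw [div_le_one (by positivity)]
      have : (0:ℝ) ≤ j := Nat.cast_nonneg _
      linarith
    exact lower hDW sel hsel γ hγ k μ hk hμ (by linarith) (by linarith)
  filter_upwards [ae_all_iff.2 h1, Pool.Agent.V5helper90.LU.upper sel hsel γ hγ k μ hk hμ]
    with c hc hu
  refine le_antisymm hu ?_
  rw [Pool.Agent.V5helper90.LU.e43]
  have hlim : Tendsto (fun j : ℕ => ENNReal.ofReal (4 / 3 - 1 / ((j : ℝ) + 1))) atTop
      (𝓝 (ENNReal.ofReal (4 / 3))) := by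
    apply ENNReal.tendsto_ofReal
    have := (tendsto_const_nhds (x := (4 / 3 : ℝ))).sub tendsto_one_div_add_atTop_nhds_zero_nat
    rwa [sub_zero] at this
  exact le_of_tendsto' hlim hc

end Pool.Agent.V5helper90.LL
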