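import Pool.Agent.W822.PD.Stm
import Pool.Agent.H342R2.Per.Plain

/-!
Lower bound for the dimension of the outer boundary: the witness statement on the lattice
(nothing is assumed).
-/

set_option autoImplicit false

namespace Pool.Agent.V5helper90.LL

open H974 H984N H342P Pool.Agent.W822.PD

/-- Witnesses for the cluster `D`: a finite set `V` of vertices of `D` with small energy, from each of
which a chain of lattice points leads to distance `3 n` and keeps away from `D`. -/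
def Wit (n : ℕ) (D : Set Vtx) (t E : ℝ) (B : ℕ) (M K : ℝ) : Prop :=
  ∃ V : Finset Vtx, V.Nonempty ∧ (∀ w ∈ V, w ∈ D) ∧
    EnV t V ≤ E * (V.card : ℝ) ^ 2 * (n : ℝ) ^ (-t) ∧
    ∀ w ∈ V, ∃ (N : ℕ) (x : ℕ → Vtx), x 0 = w ∧ (∀ i < N, sd (x i) (x (i + 1)) ≤ 1) ∧
      (3 * n : ℤ) ≤ sd (x N) w ∧
      ∀ i ≤ N, ∀ d ∈ D,
        (((sd (x i) w : ℤ) : ℝ) / n) ^ B ≤ M * (((sd (x i) d : ℤ) : ℝ) / n + K / n)

/-- DW: with high probability all the clusters of `Λ_n` of diameter at least `η n` have witnesses. -/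
def DW : Prop := ∀ t : ℝ, 0 < t → t < 4 / 3 → ∀ η : ℝ, 0 < η →
  ∃ (E : ℝ) (B : ℕ) (M K : ℝ) (n0 : ℕ), 0 < E ∧ 1 ≤ B ∧ 0 < M ∧ 0 ≤ K ∧ ∀ n : ℕ, n0 ≤ n →
    Plain.prob n (fun F => ∃ v ∈ Plain.box n,
      (∃ a ∈ Plain.cluster F v, ∃ b ∈ Plain.cluster F v, η * n ≤ ((sd a b : ℤ) : ℝ)) ∧
        ¬ Wit n (Plain.cluster F v) t E B M K) ≤ η

end Pool.Agent.V5helper90.LL
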