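import Pool.Agent.V5helper90.LL.Defs
import Pool.Agent.W822.PD.LL
import Pool.Agent.V5helper90.LU.Main
import Pool.Agent.Y989.FR.T_LG
import Pool.Agent.Y989.FR.T_QC
import Pool.Agent.Y989.FR.T_CHN
import Pool.Agent.Y989.FR.T_GEO

/-!
Lower bound for the dimension of the outer boundary of the limits: passage to the limit for curves
modulo reparametrisation, and the limit of thick chains.
-/

set_option autoImplicit false

namespace Pool.Agent.V5helper90.LL

open H974 H12S H389NS H984P H984N H342P H342L H342T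
open MeasureTheory Filter Topology Set Metric Pool.Agent.H389R2.Dim
open Pool.Agent.W424.OD Pool.Agent.TH990.FU Pool.Agent.W822.PD
open Pool.Agent.Y989.FR (Qc)
open Pool.Agent.Y989.FR.LG (AA)
open Pool.Agent.Y989.FR.GEO (ball_sub comp_eq last_index)
open scoped ENNReal NNReal

/-- Invariance under reparametrisation. -/
def Inv (Q : Set (C(unitInterval, ℂ) × ℂ)) : Prop :=
  ∀ (f : C(unitInterval, ℂ)) (φ : unitInterval ≃o unitInterval) (z : ℂ), (f, z) ∈ Q →
    (rep f φ, z) ∈ Q

theorem AA_rep {K : Set ℂ} {Q : ℕ → Set (C(unitInterval, ℂ) × ℂ)} (hQ : ∀ k, Inv (Q k)) (e : ℝ)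
    (f : C(unitInterval, ℂ)) (φ : unitInterval ≃o unitInterval) : AA K Q e (rep f φ) = AA K Q e f := by
  have key : ∀ (g : C(unitInterval, ℂ)) (ψ : unitInterval ≃o unitInterval),
      AA K Q e g ⊆ AA K Q e (rep g ψ) := by
    rintro g ψ z ⟨hz, h⟩
    exact ⟨hz, fun k hk => hQ k g ψ z (h k hk)⟩
  refine Set.Subset.antisymm ?_ (key f φ)
  have h1 := key (rep f φ) φ.symm
  have h2 : rep (rep f φ) φ.symm = f := by
    ext t
    rw [rep_apply, rep_apply, OrderIso.apply_symm_apply]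
  rwa [h2] at h1

theorem isClosed_good_AA_curve {t δ c e : ℝ} {K : Set ℂ} {Q : ℕ → Set (C(unitInterval, ℂ) × ℂ)}
    (hQ : ∀ k, IsClosed (Q k)) (hI : ∀ k, Inv (Q k)) (hK : IsCompact K) :
    IsClosed {γ : Curve | Good t δ c (AA K Q e γ.path)} :=
  isClosed_curve (Pool.Agent.Y989.FR.LG.isClosed_good_AA hQ hK)
    (fun f φ h => by rwa [AA_rep hI])

/-- Abstract passage to the limit. -/
theorem lgc {μs : ℕ → ProbabilityMeasure Curve} {μ : ProbabilityMeasure Curve}
    (hμ : Tendsto μs atTop (𝓝 μ)) {t : ℝ} (ht : 0 < t) (T : C(unitInterval, ℂ) → Set ℂ)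
    (h : ∀ ε : ℝ≥0∞, 0 < ε → ∃ (c : ℝ) (K : Set ℂ) (Q : ℕ → Set (C(unitInterval, ℂ) × ℂ)), 0 < c ∧
      IsCompact K ∧ (∀ k, IsClosed (Q k)) ∧ (∀ k, Inv (Q k)) ∧
      (∀ f, ∀ z ∈ K, (∀ k, (f, z) ∈ Q k) → z ∈ T f) ∧
      ∀ ε' : ℝ, 0 < ε' → ∀ᶠ i in atTop,
        (μs i : Measure Curve) {γ : Curve | ¬ Good t ε' c (AA K Q ε' γ.path)} ≤ ε) :
    ∀ᵐ p : Curve ∂(μ : Measure Curve), ENNReal.ofReal t ≤ dimH (T p.path) := by
  rw [ae_iff, ← nonpos_iff_eq_zero]
  apply ENNReal.le_of_forall_pos_le_add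
  intro ε hε _
  obtain ⟨c, K, Q, hc, hK, hQ, hI, hT, h1⟩ := h ε (by exact_mod_cast hε)
  have hT0 : ∀ f, AA K Q 0 f ⊆ T f := by
    rintro f z ⟨hz, hh⟩
    exact hT f z hz (fun k => hh k (by positivity))
  have hopen : ∀ ε' : ℝ, IsOpen {p : Curve | ¬ Good t ε' c (AA K Q ε' p.path)} := by
    intro ε'
    exact (isClosed_good_AA_curve (t := t) (δ := ε') (c := c) (e := ε') hQ hI hK).isOpen_compl
  have h2 : ∀ ε' : ℝ, 0 < ε' →
      (μ : Measure Curve) {p : Curve | ¬ Good t ε' c (AA K Q ε' p.path)} ≤ ε := by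
    intro ε' hε'
    refine (ProbabilityMeasure.le_liminf_measure_open_of_tendsto hμ (hopen ε')).trans ?_
    exact liminf_le_of_frequently_le (h1 ε' hε').frequently
  set Bd : ℕ → Set Curve := fun n =>
    {p : Curve | ¬ Good t (1 / ((n : ℝ) + 1)) c (AA K Q (1 / ((n : ℝ) + 1)) p.path)} with hBd
  have hmono : Monotone Bd := by
    intro n n' hnn p hp hG
    apply hp
    have h3 := hG.anti (Nat.one_div_le_one_div (α := ℝ) hnn)
    exact h3.mono (Pool.Agent.Y989.FR.LG.AA_mono (Nat.one_div_le_one_div hnn) p.path)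
  have h3 : {p : Curve | ¬ ENNReal.ofReal t ≤ dimH (T p.path)} ⊆ ⋃ n : ℕ, Bd n := by
    intro p hp
    by_contra hcon
    simp only [hBd, Set.mem_iUnion, Set.mem_ofPred_eq, not_exists, not_not] at hcon
    apply hp
    have h4 : ∀ δ' : ℝ, 0 < δ' → Good t δ' c (AA K Q 0 p.path) := by
      intro δ' hδ'
      apply Pool.Agent.Y989.FR.LG.good_zero hQ hK
      intro n
      obtain ⟨m, hm⟩ := exists_nat_one_div_lt hδ'
      have h5 := hcon (max n m)
      have h6 : (1 : ℝ) / (((max n m : ℕ) : ℝ) + 1) ≤ 1 / ((n : ℝ) + 1) :=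
        Nat.one_div_le_one_div (le_max_left _ _)
      have h7 : (1 : ℝ) / (((max n m : ℕ) : ℝ) + 1) ≤ 1 / ((m : ℝ) + 1) :=
        Nat.one_div_le_one_div (le_max_right _ _)
      exact (h5.mono (Pool.Agent.Y989.FR.LG.AA_mono h6 p.path)).anti (h7.trans hm.le)
    exact (le_dimH_of_good ht hc (Pool.Agent.Y989.FR.LG.isCompact_AA hQ hK p.path) h4).trans
      (dimH_mono (hT0 p.path))
  refine le_trans (measure_mono h3) ?_
  rw [zero_add, hmono.measure_iUnion]
  exact iSup_le fun n => h2 _ (by positivity)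

/-! ### Geometry -/

/-- A connected set which meets the open set `U` and its complement meets the frontier of `U`. -/
theorem meets_frontier {s U : Set ℂ} (hs : IsPreconnected s) (hU : IsOpen U)
    (h1 : (s ∩ U).Nonempty) (h2 : (s ∩ Uᶜ).Nonempty) : (s ∩ frontier U).Nonempty := by
  by_contra hcon
  rw [Set.not_nonempty_iff_eq_empty] at hcon
  have h3 : s ⊆ U ∪ (closure U)ᶜ := by
    intro x hx
    by_cases hxU : x ∈ U
    · exact Or.inl hxU
    · right
      intro hcl
      have : x ∈ s ∩ frontier U := by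
        refine ⟨hx, ?_⟩
        rw [frontier, hU.interior_eq]
        exact ⟨hcl, hxU⟩
      rw [hcon] at this
      exact this
  have h4 : (s ∩ (closure U)ᶜ).Nonempty := by
    obtain ⟨x, hx, hxU⟩ := h2
    exact ⟨x, hx, (h3 hx).resolve_left hxU⟩
  obtain ⟨x, -, hx1, hx2⟩ := hs U (closure U)ᶜ hU isClosed_closure.isOpen_compl h3 h1 h4
  exact hx2 (subset_closure hx1)

theorem mem_unb_of_subset {K S : Set ℂ} {u : ℂ} (hS : IsPreconnected S) (hu : u ∈ S)
    (hK : S ⊆ Kᶜ) (hb : ¬ Bornology.IsBounded S) : u ∈ unb K := by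
  refine ⟨hK hu, fun h => hb (h.subset ?_)⟩
  exact hS.subset_connectedComponentIn hu hK

theorem unb_half (g : ℂ → ℝ) (c : ℝ) (w : ℂ) (hlin : ∀ a b : ℝ, ∀ x y : ℂ,
    g ((a : ℂ) * x + (b : ℂ) * y) = a * g x + b * g y) (hw : 0 < g w) :
    IsPreconnected {z : ℂ | c < g z} ∧ ¬ Bornology.IsBounded {z : ℂ | c < g z} := by
  constructor
  · apply Convex.isPreconnected
    intro x hx y hy a b ha hb hab
    have h1 := hlin a b x y
    simp only [Set.mem_ofPred_eq] at hx hy ⊢
    have h2 : a • x + b • y = (a : ℂ) * x + (b : ℂ) * y := by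
      rw [Complex.real_smul, Complex.real_smul]
    rw [h2, h1]
    rcases ha.eq_or_lt with h | h
    · have hb1 : b = 1 := by linarith
      rw [← h, hb1]; linarith
    · have h3 : a * c + b * c = c := by rw [← add_mul, hab, one_mul]
      nlinarith [mul_lt_mul_of_pos_left hx h, mul_le_mul_of_nonneg_left hy.le hb]
  · intro hb
    obtain ⟨R, hR⟩ := hb.subset_closedBall 0
    have hw0 : w ≠ 0 := by
      rintro rfl
      have := hlin 0 0 0 0
      simp only [Complex.ofReal_zero, zero_mul, add_zero] at this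
      rw [this] at hw
      exact lt_irrefl _ hw
    have hn : 0 < ‖w‖ := norm_pos_iff.2 hw0
    set s : ℝ := max (|c| / g w + 1) (|R| / ‖w‖ + 1) with hs
    have hs1 : |c| / g w + 1 ≤ s := le_max_left _ _
    have hs2 : |R| / ‖w‖ + 1 ≤ s := le_max_right _ _
    have e1 : g ((s : ℂ) * w) = s * g w := by
      have := hlin s 0 w 0
      simpa using this
    have h1 : (s : ℂ) * w ∈ {z : ℂ | c < g z} := by
      rw [Set.mem_ofPred_eq, e1]
      have h3 : |c| + g w ≤ s * g w := by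
        have := mul_le_mul_of_nonneg_right hs1 hw.le
        rw [add_mul, div_mul_cancel₀ _ hw.ne', one_mul] at this
        exact this
      linarith [le_abs_self c]
    have h2 := hR h1
    rw [mem_closedBall_zero_iff, norm_mul, Complex.norm_real, Real.norm_eq_abs] at h2
    have h3 : |R| + ‖w‖ ≤ s * ‖w‖ := by
      have := mul_le_mul_of_nonneg_right hs2 hn.le
      rw [add_mul, div_mul_cancel₀ _ hn.ne', one_mul] at this
      exact this
    have h4 : s * ‖w‖ ≤ |s| * ‖w‖ := mul_le_mul_of_nonneg_right (le_abs_self s) hn.le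
    linarith [le_abs_self R]

/-- Points outside the closed square lie in the unbounded component. -/
theorem mem_unb_of_not_csq {K : Set ℂ} (hK : K ⊆ csq) {u : ℂ} (hu : u ∉ csq) : u ∈ unb K := by
  have hu' : u.re < 0 ∨ 1 < u.re ∨ u.im < 0 ∨ 1 < u.im := by
    by_contra hcon
    push Not at hcon
    exact hu ⟨⟨hcon.1, hcon.2.1⟩, hcon.2.2.1, hcon.2.2.2⟩
  rcases hu' with h | h | h | h
  · have h1 := unb_half (fun z => -z.re) 0 (-1) (by intro a b x y; simp; ring) (by simp)
    refine mem_unb_of_subset h1.1 ?_ ?_ h1.2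
    · simpa using h
    · intro z hz hzK
      have := (hK hzK).1.1
      simp only [Set.mem_ofPred_eq] at hz
      linarith
  · have h1 := unb_half (fun z => z.re) 1 1 (by intro a b x y; simp) (by simp)
    refine mem_unb_of_subset h1.1 h ?_ h1.2
    intro z hz hzK
    have := (hK hzK).1.2
    simp only [Set.mem_ofPred_eq] at hz
    linarith
  · have h1 := unb_half (fun z => -z.im) 0 (-Complex.I) (by intro a b x y; simp; ring) (by simp)
    refine mem_unb_of_subset h1.1 ?_ ?_ h1.2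
    · simpa using h
    · intro z hz hzK
      have := (hK hzK).2.1
      simp only [Set.mem_ofPred_eq] at hz
      linarith
  · have h1 := unb_half (fun z => z.im) 1 Complex.I (by intro a b x y; simp) (by simp)
    refine mem_unb_of_subset h1.1 h ?_ h1.2
    intro z hz hzK
    have := (hK hzK).2.2
    simp only [Set.mem_ofPred_eq] at hz
    linarith

/-- A chain which keeps away from `K` and leaves the square starts in the unbounded component. -/
theorem chain_unb {K : Set ℂ} {m : ℝ} (hm : 0 < m) {X : ℕ → ℂ} {j N : ℕ} (hj : j ≤ N)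
    (hK : K ⊆ csq) (haw : ∀ i, j ≤ i → i ≤ N → ∀ y ∈ K, m ≤ dist (X i) y)
    (hst : ∀ i, j ≤ i → i < N → dist (X i) (X (i + 1)) < m) (hN : X N ∉ csq) : X j ∈ unb K := by
  have key : ∀ i, j ≤ i → i ≤ N → connectedComponentIn Kᶜ (X j) = connectedComponentIn Kᶜ (X i) := by
    intro i hi
    induction i, hi using Nat.le_induction with
    | base => intro _; rfl
    | succ i hi ih =>
      intro hin
      rw [ih (by omega)]
      exact comp_eq hm (ball_sub (haw i hi (by omega))) (hst i hi (by omega))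
  have h1 := mem_unb_of_not_csq hK hN
  have h2 : X j ∈ Kᶜ := ball_sub (haw j le_rfl hj) (mem_ball_self hm)
  refine ⟨h2, ?_⟩
  rw [key N hj le_rfl]
  exact h1.2

theorem csq_dist {z u : ℂ} (hz : z ∈ csq) (hu : u ∈ csq) : dist z u ≤ 2 := by
  rw [dist_eq_norm]
  have h1 := Complex.norm_le_abs_re_add_abs_im (z - u)
  rw [Complex.sub_re, Complex.sub_im] at h1
  obtain ⟨⟨a1, a2⟩, a3, a4⟩ := hz
  obtain ⟨⟨b1, b2⟩, b3, b4⟩ := hu
  have h2 : |z.re - u.re| ≤ 1 := abs_le.2 ⟨by linarith, by linarith⟩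
  have h3 : |z.im - u.im| ≤ 1 := abs_le.2 ⟨by linarith, by linarith⟩
  linarith

/-- In the limit `z` lies on the outer boundary. -/
theorem geo_oB {M R : ℝ} {B : ℕ} {N : ℕ → ℕ} {f : C(unitInterval, ℂ)} {z : ℂ} (hM : 0 < M)
    (hf : Set.range f ⊆ csq) (hz : z ∈ csq)
    (hQ : ∀ k : ℕ, (f, z) ∈ Qc M 3 R (1 / ((k : ℝ) + 1)) B (N k)) : z ∈ oB (Set.range f) := by
  set K : Set ℂ := Set.range f with hK
  have hKc : IsCompact K := isCompact_range f.continuous
  have hzK : z ∈ K := by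
    rw [← hKc.isClosed.closure_eq, Metric.mem_closure_iff]
    intro ε hε
    obtain ⟨k, hk⟩ := exists_nat_one_div_lt hε
    obtain ⟨-, ⟨s, hs⟩, -⟩ := hQ k
    refine ⟨f s, Set.mem_range_self s, ?_⟩
    rw [dist_comm]
    exact hs.trans_lt hk
  have hcl : z ∈ closure (unb K) := by
    rw [Metric.mem_closure_iff]
    intro ε hε
    set η : ℝ := min (ε / 4) 1 with hη
    have hη0 : 0 < η := lt_min (by positivity) one_pos
    have hη1 : η ≤ 1 := min_le_right _ _
    have hη2 : η ≤ ε / 4 := min_le_left _ _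
    have hηB : 0 < η ^ B := pow_pos hη0 B
    have hmη : 0 < η ^ B / (2 * M) := by positivity
    obtain ⟨k, hk⟩ := exists_nat_one_div_lt (lt_min (lt_min (half_pos hηB) hmη) (lt_min hη0
      one_pos))
    set e : ℝ := 1 / ((k : ℝ) + 1) with he
    have he1 : e < η ^ B / 2 := hk.trans_le ((min_le_left _ _).trans (min_le_left _ _))
    have he2 : e < η ^ B / (2 * M) := hk.trans_le ((min_le_left _ _).trans (min_le_right _ _))
    have he3 : e < η := hk.trans_le ((min_le_right _ _).trans (min_le_left _ _))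
    have he4 : e < 1 := hk.trans_le ((min_le_right _ _).trans (min_le_right _ _))
    have hQk := hQ k
    rw [← he] at hQk
    generalize N k = n at hQk
    obtain ⟨-, -, x, hxR, hx0, hxN, hxs, hxd⟩ := hQk
    replace hx0 : dist (x 0) z ≤ e := hx0
    replace hxN : 3 ≤ dist (x (Fin.last n)) z + e := hxN
    replace hxd : ∀ i s, dist (x i) z ^ B ≤ M * dist (x i) (f s) + e := hxd
    let X : ℕ → ℂ := fun i => x ⟨min i n, by omega⟩
    have hX0 : X 0 = x 0 := congrArg x (Fin.ext (Nat.zero_min n))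
    have hXN : X n = x (Fin.last n) := congrArg x (Fin.ext (min_self n))
    have hXs : ∀ i, i < n → dist (X i) (X (i + 1)) ≤ e := by
      intro i hi
      have h1 := hxs ⟨i, hi⟩
      have e1 : X i = x (Fin.castSucc ⟨i, hi⟩) := congrArg x (Fin.ext (min_eq_left hi.le))
      have e2 : X (i + 1) = x (Fin.succ ⟨i, hi⟩) := congrArg x (Fin.ext (min_eq_left hi))
      rw [e1, e2]
      exact h1
    have hXd : ∀ i s, dist (X i) z ^ B ≤ M * dist (X i) (f s) + e := fun i s => hxd _ s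
    have hP0 : dist (X 0) z < η := by
      rw [hX0]
      exact hx0.trans_lt he3
    have hPN : ¬ dist (X n) z < η := by
      rw [hXN]
      intro h
      linarith
    obtain ⟨j, hj, hPj, hPi⟩ := last_index (P := fun i => dist (X i) z < η) hP0 hPN
    refine ⟨X (j + 1), ?_, ?_⟩
    · refine chain_unb (m := η ^ B / (2 * M)) (N := n) hmη (by omega) hf ?_ ?_ ?_
      · rintro i hi hin _ ⟨s, rfl⟩
        have h1 := hXd i s
        have h2 : η ^ B ≤ dist (X i) z ^ B :=
          pow_le_pow_left₀ hη0.le (not_lt.1 (hPi i hi hin)) B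
        rw [div_le_iff₀ (by positivity)]
        linarith
      · intro i _ hin
        exact (hXs i hin).trans_lt he2
      · intro hcon
        have h1 := csq_dist hcon hz
        rw [hXN] at h1
        linarith
    · have h1 := dist_triangle (X (j + 1)) (X j) z
      have h2 := hXs j hj
      rw [dist_comm] at h2
      rw [dist_comm]
      linarith
  refine ⟨hcl, fun h => ?_⟩
  exact (interior_subset h).1 hzK

theorem Qc_inv (M κ R e : ℝ) (B N : ℕ) : Inv (Qc M κ R e B N) := by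
  rintro f φ z ⟨h1, ⟨s, hs⟩, x, h2, h3, h4, h5, h6⟩
  refine ⟨h1, ⟨φ.symm s, ?_⟩, x, h2, h3, h4, h5, fun i s => ?_⟩
  · show dist (rep f φ (φ.symm s)) z ≤ e
    rw [rep_apply, OrderIso.apply_symm_apply]
    exact hs
  · show dist (x i) z ^ B ≤ M * dist (x i) (rep f φ s) + e
    rw [rep_apply]
    exact h6 i (φ s)

/-- The curves in the closed square. -/
theorem isClosed_in_csq : IsClosed {p : C(unitInterval, ℂ) × ℂ | Set.range p.1 ⊆ csq} := by
  have h : {p : C(unitInterval, ℂ) × ℂ | Set.range p.1 ⊆ csq} =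
      ⋂ s : unitInterval, {p : C(unitInterval, ℂ) × ℂ | p.1 s ∈ csq} := by
    ext p
    simp only [Set.mem_ofPred_eq, Set.mem_iInter, Set.range_subset_iff]
  rw [h]
  refine isClosed_iInter fun s => ?_
  exact isClosed_csq.preimage
    ((continuous_eval_const (F := C(unitInterval, ℂ)) s).comp continuous_fst)

/-- The closed sets of pairs used in the limit. -/
def QQ (M R : ℝ) (B : ℕ) (N : ℕ → ℕ) (k : ℕ) : Set (C(unitInterval, ℂ) × ℂ) :=
  Qc M 3 R (1 / ((k : ℝ) + 1)) B (N k) ∩ {p | Set.range p.1 ⊆ csq}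

theorem QQ_closed (M R : ℝ) (B : ℕ) (N : ℕ → ℕ) (k : ℕ) : IsClosed (QQ M R B N k) :=
  (Pool.Agent.Y989.FR.QC.t_QC _ _ _ _ _ _).inter isClosed_in_csq

theorem QQ_inv (M R : ℝ) (B : ℕ) (N : ℕ → ℕ) (k : ℕ) : Inv (QQ M R B N k) := by
  rintro f φ z ⟨h1, h2⟩
  refine ⟨Qc_inv _ _ _ _ _ _ f φ z h1, ?_⟩
  rintro _ ⟨s, rfl⟩
  show rep f φ s ∈ csq
  rw [rep_apply]
  exact h2 ⟨φ s, rfl⟩

theorem QQ_oB {M R : ℝ} (hM : 0 < M) {B : ℕ} {N : ℕ → ℕ} {f : C(unitInterval, ℂ)} {z : ℂ}
    (hz : z ∈ csq) (h : ∀ k, (f, z) ∈ QQ M R B N k) : z ∈ oB (Set.range f) :=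
  geo_oB hM (h 0).2 hz fun k => (h k).1

end Pool.Agent.V5helper90.LL
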