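import Pool.Agent.V5helper90.LL.LimA

/-!
Lower bound for the dimension of the outer boundary of the limits: witnesses on the lattice make the
set of approximate points of the outer boundary good.
-/

set_option autoImplicit false

namespace Pool.Agent.V5helper90.LL

open H974 H12S H389NS H984P H984N H342P H342L H342T
open MeasureTheory Filter Topology Set Metric Pool.Agent.H389R2.Dim
open Pool.Agent.W424.OD Pool.Agent.TH990.FU Pool.Agent.W822.PD
open Pool.Agent.Y989.FR (Qc)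
open Pool.Agent.Y989.FR.LG (AA)
open Pool.Agent.Y989.FR.GEO (ball_sub comp_eq last_index)
open scoped ENNReal NNReal

/-! ### Lattice distances -/

theorem sdc (u v : Vtx) : sd u v = sd v u := by
  unfold sd
  rw [abs_sub_comm u.1, abs_sub_comm u.2]

theorem sdn (u v : Vtx) : 0 ≤ sd u v := le_max_of_le_left (abs_nonneg _)

theorem sdt (u v w : Vtx) : sd u w ≤ sd u v + sd v w := by
  unfold sd
  refine max_le ?_ ?_
  · have h := abs_sub_le u.1 v.1 w.1
    exact h.trans (add_le_add (le_max_left _ _) (le_max_left _ _))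
  · have h := abs_sub_le u.2 v.2 w.2
    exact h.trans (add_le_add (le_max_right _ _) (le_max_right _ _))

theorem sd0 (u : Vtx) : sd u u = 0 := by simp [sd]

theorem pt_dist_le {n : ℕ} (hn : 0 < n) (v w : Vtx) :
    dist (pt n v) (pt n w) ≤ 2 * (((sd v w : ℤ) : ℝ) / n) := by
  have hn' : (0:ℝ) < n := by exact_mod_cast hn
  rw [sd_castR, dist_eq_norm]
  have e1 : |(pt n v - pt n w).re| = |((v.1 : ℝ) - w.1)| / n := by
    rw [Complex.sub_re]
    simp only [pt]
    rw [← sub_div, abs_div, Nat.abs_cast]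
  have e2 : |(pt n v - pt n w).im| = |((v.2 : ℝ) - w.2)| / n := by
    rw [Complex.sub_im]
    simp only [pt]
    rw [← sub_div, abs_div, Nat.abs_cast]
  have h := Complex.norm_le_abs_re_add_abs_im (pt n v - pt n w)
  rw [e1, e2] at h
  have h1 : |((v.1 : ℝ) - w.1)| / n ≤ max |((v.1 : ℝ) - w.1)| |((v.2 : ℝ) - w.2)| / n :=
    div_le_div_of_nonneg_right (le_max_left _ _) hn'.le
  have h2 : |((v.2 : ℝ) - w.2)| / n ≤ max |((v.1 : ℝ) - w.1)| |((v.2 : ℝ) - w.2)| / n :=
    div_le_div_of_nonneg_right (le_max_right _ _) hn'.le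
  linarith

theorem pt_dist_ge {n : ℕ} (hn : 0 < n) (v w : Vtx) :
    ((sd v w : ℤ) : ℝ) / n ≤ dist (pt n v) (pt n w) := by
  have := pt_dist hn v w
  rwa [inv_mul_eq_div] at this

theorem body_near {n : ℕ} (hn : 0 < n) {F : Finset Plain.Edge} {v : ℤ × ℤ} {z : ℂ}
    (hz : z ∈ body n F v) : ∃ d ∈ Plain.cluster F v, dist z (pt n d) ≤ 2 / n := by
  have hn' : (0:ℝ) < n := by exact_mod_cast hn
  rcases hz with hz | hz
  · obtain ⟨w, hw, hz⟩ := Set.mem_iUnion₂.1 hz
    rw [Set.mem_singleton_iff] at hz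
    refine ⟨w, hw, ?_⟩
    rw [hz, dist_self]
    positivity
  · obtain ⟨e, he, hz⟩ := Set.mem_iUnion₂.1 hz
    refine ⟨Plain.fst e, he.2, ?_⟩
    have h1 : sd (Plain.snd e) (Plain.fst e) ≤ 1 := by
      obtain ⟨x, y, t⟩ := e
      cases t <;> simp [Plain.fst, Plain.snd, sd]
    have h2 : dist (pt n (Plain.snd e)) (pt n (Plain.fst e)) ≤ 2 / n := by
      refine (pt_dist_le hn _ _).trans ?_
      have h3 : ((sd (Plain.snd e) (Plain.fst e) : ℤ) : ℝ) ≤ 1 := by exact_mod_cast h1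
      rw [← mul_div_assoc]
      exact div_le_div_of_nonneg_right (by linarith) hn'.le
    have h3 := (convex_closedBall (pt n (Plain.fst e)) (2 / n)).segment_subset
      (mem_closedBall_self (by positivity)) (mem_closedBall.2 h2)
    exact mem_closedBall.1 (h3 hz)

/-! ### Chains -/

/-- The shortening property. -/
def Sh (R e : ℝ) (N : ℕ) : Prop := ∀ (S : Set ℂ) (a b : ℂ), (∀ x ∈ S, ‖x‖ ≤ R) →
  a ∈ S → Relation.ReflTransGen (fun x y => y ∈ S ∧ dist x y ≤ e) a b →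
    ∃ x : Fin (N + 1) → ℂ, (∀ i, x i ∈ S) ∧ x 0 = a ∧ x (Fin.last N) = b ∧
      ∀ i : Fin N, dist (x i.castSucc) (x i.succ) ≤ e

theorem exists_sh (R : ℝ) : ∃ N : ℕ → ℕ, ∀ k : ℕ, Sh R (1 / ((k : ℝ) + 1)) (N k) := by
  have h : ∀ k : ℕ, ∃ N : ℕ, Sh R (1 / ((k : ℝ) + 1)) N := fun k =>
    Pool.Agent.Y989.FR.CHN.t_CHN R (1 / ((k : ℝ) + 1)) (by positivity)
  choose N hN using h
  exact ⟨N, hN⟩

/-- Truncation of a chain at the first time at distance `3 n`. -/
theorem truncate {n : ℕ} (hn : 0 < n) {w : Vtx} {N : ℕ} {x : ℕ → Vtx} (h0 : x 0 = w)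
    (hs : ∀ i < N, sd (x i) (x (i + 1)) ≤ 1) (hN : (3 * n : ℤ) ≤ sd (x N) w) :
    ∃ N' ≤ N, (3 * n : ℤ) ≤ sd (x N') w ∧ ∀ i ≤ N', sd (x i) w ≤ 4 * n := by
  classical
  have hex : ∃ i, (3 * n : ℤ) ≤ sd (x i) w := ⟨N, hN⟩
  refine ⟨Nat.find hex, Nat.find_min' hex hN, Nat.find_spec hex, ?_⟩
  intro i hi
  rcases i with _ | i
  · rw [h0, sd0]; positivity
  · have h1 : ¬ (3 * n : ℤ) ≤ sd (x i) w := Nat.find_min hex (by omega)
    have h2 : Nat.find hex ≤ N := Nat.find_min' hex hN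
    have h3 := hs i (by omega)
    have h4 := sdt (x (i + 1)) (x i) w
    rw [sdc (x (i + 1)) (x i)] at h4
    omega

/-- A point with a witness chain is an approximate point of the outer boundary. -/
theorem wit_mem {n : ℕ} (hn : 0 < n) {F : Finset Plain.Edge} (hF : F ⊆ Plain.edges n) {v : ℤ × ℤ}
    (hv : v ∈ Plain.box n) {f : C(unitInterval, ℂ)} (hf : Set.range f = outerBoundary n F v)
    {B : ℕ} {M K ε' ρ : ℝ} (hM : 0 < M) (hK : 0 ≤ K) (hρ : 0 < ρ) (hρ1 : ρ ≤ 1)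
    (hρ4 : 2 * ρ ≤ ε') (hn1 : (K + 3) / n < (ρ / 2) ^ B / (2 * M)) (hn2 : (K + 3) / n < ρ)
    (hn3 : 2 ^ B * M * ((K + 3) / n) < ε') {w : Vtx} (hw : w ∈ Plain.cluster F v)
    {N : ℕ} {x : ℕ → Vtx} (hx0 : x 0 = w) (hxs : ∀ i < N, sd (x i) (x (i + 1)) ≤ 1)
    (hxN : (3 * n : ℤ) ≤ sd (x N) w)
    (hxd : ∀ i ≤ N, ∀ d ∈ Plain.cluster F v,
        (((sd (x i) w : ℤ) : ℝ) / n) ^ B ≤ M * (((sd (x i) d : ℤ) : ℝ) / n + K / n))
    {Nc : ℕ → ℕ} (hNc : ∀ k : ℕ, Sh 10 (1 / ((k : ℝ) + 1)) (Nc k)) :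
    pt n w ∈ AA csq (QQ (2 ^ B * M) 10 B Nc) ε' f := by
  have hn' : (0:ℝ) < n := by exact_mod_cast hn
  obtain ⟨N', hN', hfar, hnear⟩ := truncate hn hx0 hxs hxN
  set m : ℝ := (ρ / 2) ^ B / (2 * M) with hm
  have hm0 : 0 < m := by positivity
  have hzc : pt n w ∈ csq := CPT_pt_box hn (CPT_box hF hv hw)
  have hKn : 0 ≤ K / n := by positivity
  have h3n : 2 / (n:ℝ) ≤ (K + 3) / n := div_le_div_of_nonneg_right (by linarith) hn'.le
  have hKs : K / n + 2 / n ≤ (K + 3) / n := by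
    rw [← add_div]
    exact div_le_div_of_nonneg_right (by linarith) hn'.le
  -- steps
  have hstep : ∀ i < N', dist (pt n (x i)) (pt n (x (i + 1))) ≤ 2 / n := by
    intro i hi
    refine (pt_dist_le hn _ _).trans ?_
    have h3 : ((sd (x i) (x (i + 1)) : ℤ) : ℝ) ≤ 1 := by exact_mod_cast hxs i (by omega)
    rw [← mul_div_assoc]
    exact div_le_div_of_nonneg_right (by linarith) hn'.le
  -- distance to the body
  have hbody : ∀ i ≤ N', ∀ y ∈ body n F v,
      (((sd (x i) w : ℤ) : ℝ) / n) ^ B ≤ M * (dist (pt n (x i)) y + (K + 3) / n) := by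
    intro i hi y hy
    obtain ⟨d, hd, hyd⟩ := body_near hn hy
    refine (hxd i (by omega) d hd).trans ?_
    apply mul_le_mul_of_nonneg_left _ hM.le
    have h1 := pt_dist_ge hn (x i) d
    have h2 := dist_triangle (pt n (x i)) y (pt n d)
    linarith
  have hbdy : Set.range f ⊆ body n F v := by
    rw [hf]; exact CPT_frontier_sub n F v
  have hbsq : body n F v ⊆ csq := fun z hz => CPT_body_square hn hF hv hz
  -- norms
  have hnz : ∀ z ∈ csq, ‖z‖ ≤ 2 := by
    intro z hz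
    have h0 : (0:ℂ) ∈ csq := by
      refine ⟨⟨?_, ?_⟩, ?_, ?_⟩ <;> simp
    have := csq_dist hz h0
    rwa [dist_zero_right] at this
  have hnorm : ∀ i ≤ N', ‖pt n (x i)‖ ≤ 10 := by
    intro i hi
    have h1 := pt_dist_le hn (x i) w
    have h2 : ((sd (x i) w : ℤ) : ℝ) ≤ 4 * n := by exact_mod_cast hnear i hi
    have h3 : ((sd (x i) w : ℤ) : ℝ) / n ≤ 4 := by
      rw [div_le_iff₀ hn']; exact h2
    have h4 := hnz _ hzc
    have h5 : ‖pt n (x i)‖ ≤ dist (pt n (x i)) (pt n w) + ‖pt n w‖ := by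
      rw [dist_eq_norm]
      have := norm_add_le (pt n (x i) - pt n w) (pt n w)
      rwa [sub_add_cancel] at this
    linarith
  have hend : 3 ≤ dist (pt n (x N')) (pt n w) := by
    have h1 := pt_dist_ge hn (x N') w
    have h2 : (3 * n : ℝ) ≤ ((sd (x N') w : ℤ) : ℝ) := by exact_mod_cast hfar
    have h3 : 3 ≤ ((sd (x N') w : ℤ) : ℝ) / n := by
      rw [le_div_iff₀ hn']; exact h2
    linarith
  -- the curve passes near the point
  have hcurve : ∃ s, dist (f s) (pt n w) ≤ ε' := by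
    have hP0 : dist (pt n (x 0)) (pt n w) < ρ := by
      rw [hx0, dist_self]; exact hρ
    have hPN : ¬ dist (pt n (x N')) (pt n w) < ρ := by
      intro h; linarith
    obtain ⟨j, hj, hPj, hPi⟩ :=
      last_index (P := fun i => dist (pt n (x i)) (pt n w) < ρ) hP0 hPN
    have hunb : pt n (x (j + 1)) ∈ unb (body n F v) := by
      refine chain_unb (X := fun i => pt n (x i)) (m := m) (N := N') hm0 (by omega) hbsq ?_ ?_ ?_
      · intro i hi hin y hy
        have h1 := hbody i hin y hy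
        have h2 : ρ ≤ dist (pt n (x i)) (pt n w) := not_lt.1 (hPi i hi hin)
        have h3 := pt_dist_le hn (x i) w
        have h4 : ρ / 2 ≤ ((sd (x i) w : ℤ) : ℝ) / n := by linarith
        have h5 : (ρ / 2) ^ B ≤ (((sd (x i) w : ℤ) : ℝ) / n) ^ B :=
          pow_le_pow_left₀ (by positivity) h4 B
        have h6 : (ρ / 2) ^ B = 2 * M * m := by
          rw [hm]; field_simp
        have h7 : 2 * M * m ≤ M * (dist (pt n (x i)) y + (K + 3) / n) := by
          rw [← h6]; exact h5.trans h1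
        have h8 : 2 * m ≤ dist (pt n (x i)) y + (K + 3) / n := by
          have : M * (2 * m) ≤ M * (dist (pt n (x i)) y + (K + 3) / n) := by
            calc M * (2 * m) = 2 * M * m := by ring
              _ ≤ _ := h7
          exact le_of_mul_le_mul_left this hM
        show m ≤ dist (pt n (x i)) y
        linarith
      · intro i _ hin
        exact (hstep i hin).trans_lt (h3n.trans_lt hn1)
      · intro hcon
        have := csq_dist hcon hzc
        linarith
    have hw' : pt n w ∉ unb (body n F v) := by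
      intro h
      apply h.1
      left
      exact Set.mem_biUnion hw (Set.mem_singleton _)
    have hconn : IsPreconnected (segment ℝ (pt n w) (pt n (x (j + 1)))) :=
      (convex_segment _ _).isPreconnected
    obtain ⟨q, hq1, hq2⟩ := meets_frontier hconn
      (isOpen_unb (CPT_isCompact_body n F v).isClosed)
      ⟨_, right_mem_segment _ _ _, hunb⟩ ⟨_, left_mem_segment _ _ _, hw'⟩
    have hq3 : q ∈ Set.range f := by
      rw [hf]; exact hq2
    obtain ⟨s, hs⟩ := hq3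
    refine ⟨s, ?_⟩
    rw [hs]
    have h1 : dist (pt n (x (j + 1))) (pt n w) ≤ ε' := by
      have h2 := dist_triangle (pt n (x (j + 1))) (pt n (x j)) (pt n w)
      have h3 := hstep j hj
      rw [dist_comm] at h3
      linarith
    have h2 := (convex_closedBall (pt n w) ε').segment_subset
      (mem_closedBall_self (by linarith)) (mem_closedBall.2 h1)
    exact mem_closedBall.1 (h2 hq1)
  refine ⟨hzc, fun k hk => ⟨⟨?_, ?_, ?_⟩, ?_⟩⟩
  · exact (hnz _ hzc).trans (by norm_num)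
  · obtain ⟨s, hs⟩ := hcurve
    exact ⟨s, hs.trans hk⟩
  · obtain ⟨y, hy1, hy2, hy3, hy4⟩ := hNc k {z | ∃ i ≤ N', z = pt n (x i)} (pt n (x 0))
      (pt n (x N')) (by rintro _ ⟨i, hi, rfl⟩; exact hnorm i hi) ⟨0, by omega, rfl⟩ (by
        have key : ∀ i ≤ N', Relation.ReflTransGen (fun a b =>
            b ∈ {z | ∃ i ≤ N', z = pt n (x i)} ∧ dist a b ≤ 1 / ((k : ℝ) + 1)) (pt n (x 0))
            (pt n (x i)) := by
          intro i
          induction i with
          | zero => intro _; exact Relation.ReflTransGen.refl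
          | succ i ih =>
            intro hi
            refine (ih (by omega)).tail ⟨⟨i + 1, hi, rfl⟩, ?_⟩
            exact ((hstep i (by omega)).trans (by linarith)).trans hk
        exact key N' le_rfl)
    refine ⟨y, ?_, ?_, ?_, hy4, ?_⟩
    · intro i
      obtain ⟨j, hj, h⟩ := hy1 i
      rw [h]
      exact hnorm j hj
    · rw [hy2, hx0, dist_self]
      positivity
    · show 3 ≤ dist (y (Fin.last (Nc k))) (pt n w) + 1 / ((k : ℝ) + 1)
      rw [hy3]
      have : (0:ℝ) ≤ 1 / ((k : ℝ) + 1) := by positivity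
      linarith
    · intro i s
      show dist (y i) (pt n w) ^ B ≤ 2 ^ B * M * dist (y i) (f s) + 1 / ((k : ℝ) + 1)
      obtain ⟨j, hj, h⟩ := hy1 i
      rw [h]
      have h1 := hbody j hj (f s) (hbdy ⟨s, rfl⟩)
      have h2 : dist (pt n (x j)) (pt n w) ^ B ≤ 2 ^ B * (((sd (x j) w : ℤ) : ℝ) / n) ^ B := by
        rw [← mul_pow]
        exact pow_le_pow_left₀ dist_nonneg (pt_dist_le hn _ _) B
      have h3 : 2 ^ B * (((sd (x j) w : ℤ) : ℝ) / n) ^ B ≤
          2 ^ B * (M * (dist (pt n (x j)) (f s) + (K + 3) / n)) :=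
        mul_le_mul_of_nonneg_left h1 (by positivity)
      have h4 : 2 ^ B * (M * (dist (pt n (x j)) (f s) + (K + 3) / n)) =
          2 ^ B * M * dist (pt n (x j)) (f s) + 2 ^ B * M * ((K + 3) / n) := by ring
      linarith
  · exact hbdy.trans hbsq

/-- Witnesses make the approximate outer boundary good. -/
theorem good_of_wit {n : ℕ} (hn : 0 < n) {F : Finset Plain.Edge} (hF : F ⊆ Plain.edges n)
    {v : ℤ × ℤ} (hv : v ∈ Plain.box n) {f : C(unitInterval, ℂ)}
    (hf : Set.range f = outerBoundary n F v)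
    {t E : ℝ} {B : ℕ} {M K ε' ρ : ℝ} (ht : 0 < t) (hE : 0 < E) (hM : 0 < M) (hK : 0 ≤ K)
    (hρ : 0 < ρ) (hρ1 : ρ ≤ 1)
    (hρ4 : 2 * ρ ≤ ε') (hn1 : (K + 3) / n < (ρ / 2) ^ B / (2 * M)) (hn2 : (K + 3) / n < ρ)
    (hn3 : 2 ^ B * M * ((K + 3) / n) < ε') (hW : Wit n (Plain.cluster F v) t E B M K)
    {Nc : ℕ → ℕ} (hNc : ∀ k : ℕ, Sh 10 (1 / ((k : ℝ) + 1)) (Nc k)) :
    Good t ε' (2 ^ (-t) / E) (AA csq (QQ (2 ^ B * M) 10 B Nc) ε' f) := by
  classical
  obtain ⟨V, hne, hVD, hEn, hV⟩ := hW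
  have hn' : (0:ℝ) < n := by exact_mod_cast hn
  have hε0 : 0 < ε' := by linarith
  refine good_of_energy hε0 ht.le hE (V.image (pt n)) (hne.image _) ?_ ?_
  · intro z hz
    rw [Finset.mem_coe, Finset.mem_image] at hz
    obtain ⟨w, hw, rfl⟩ := hz
    obtain ⟨N, x, h1, h2, h3, h4⟩ := hV w hw
    exact wit_mem hn hF hv hf hM hK hρ hρ1 hρ4 hn1 hn2 hn3 (hVD w hw) h1 h2 h3 h4 hNc
  · rw [Finset.sum_image (fun a _ b _ hab => pt_inj hn hab),
      Finset.card_image_of_injective _ (pt_inj hn)]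
    have hε' : 1 / (n : ℝ) ≤ ε' := by
      have : 1 / (n:ℝ) ≤ (K + 3) / n := div_le_div_of_nonneg_right (by linarith) hn'.le
      linarith
    have e1 : ∀ v ∈ V, ∑ y ∈ V.image (pt n), (max (dist (pt n v) y) ε') ^ (-t) ≤
        ∑ w ∈ V, ((n:ℝ)⁻¹) ^ (-t) * ((max (sd v w) 1 : ℤ) : ℝ) ^ (-t) := by
      intro v _
      rw [Finset.sum_image (fun a _ b _ hab => pt_inj hn hab)]
      refine Finset.sum_le_sum fun w _ => ?_
      have hm : (1 : ℝ) ≤ ((max (sd v w) 1 : ℤ) : ℝ) := by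
        exact_mod_cast le_max_right (sd v w) 1
      rw [← Real.mul_rpow (by positivity) (by linarith)]
      refine Real.rpow_le_rpow_of_nonpos (by positivity) ?_ (by linarith)
      have h6 := pt_dist hn v w
      rcases max_cases (sd v w) 1 with h | h
      · rw [h.1]; exact h6.trans (le_max_left _ _)
      · rw [h.1]; push_cast; rw [mul_one]
        refine le_trans ?_ (le_max_right _ _)
        rwa [one_div] at hε'
    refine (Finset.sum_le_sum e1).trans ?_
    have e2 : ∑ v ∈ V, ∑ w ∈ V, ((n:ℝ)⁻¹) ^ (-t) * ((max (sd v w) 1 : ℤ) : ℝ) ^ (-t)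
        = ((n:ℝ)⁻¹) ^ (-t) * EnV t V := by
      unfold EnV
      rw [Finset.mul_sum]
      refine Finset.sum_congr rfl fun v _ => ?_
      rw [Finset.mul_sum]
    rw [e2]
    have e5 : ((n:ℝ)⁻¹) ^ (-t) = (n:ℝ) ^ t := by
      rw [Real.inv_rpow hn'.le, Real.rpow_neg hn'.le, inv_inv]
    rw [e5]
    calc (n:ℝ) ^ t * EnV t V ≤ (n:ℝ) ^ t * (E * (V.card : ℝ) ^ 2 * (n : ℝ) ^ (-t)) :=
          mul_le_mul_of_nonneg_left hEn (by positivity)
      _ = E * (V.card : ℝ) ^ 2 := by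
          have : (n:ℝ) ^ t * (n : ℝ) ^ (-t) = 1 := by
            rw [← Real.rpow_add hn', add_neg_cancel, Real.rpow_zero]
          calc (n:ℝ) ^ t * (E * (V.card : ℝ) ^ 2 * (n : ℝ) ^ (-t))
              = E * (V.card : ℝ) ^ 2 * ((n:ℝ) ^ t * (n : ℝ) ^ (-t)) := by ring
            _ = _ := by rw [this, mul_one]

end Pool.Agent.V5helper90.LL
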